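import Pool.Agent.H343.AN.StAB

set_option autoImplicit false

namespace Pool.Agent.H920.AN

open Pool.Agent.H343.AN

theorem a3 : S_A3 := by
  intro X Y _ _ P P' k s s' D' R f hR hD hP hs hd ⟨c, hc⟩
  refine ⟨fun x => c (f x), fun x y hxy => ?_⟩
  have h1 : ∀ y, Relation.ReflTransGen (Stp P (fun x => c (f x)) s) x y →
      x = y ∨ (x ∈ P ∧ y ∈ P ∧ Relation.ReflTransGen (Stp P' c s') (f x) (f y)) := by
    intro y hy
    induction hy with
    | refl => exact Or.inl rfl
    | tail _ hbc ih =>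
      obtain ⟨hb, hc', hcol, hdist⟩ := hbc
      right
      rcases ih with rfl | ⟨hx, _, ih⟩
      · exact ⟨hb, hc', Relation.ReflTransGen.single ⟨hP _ hb, hP _ hc', hcol, hs _ hb _ hc' hdist⟩⟩
      · exact ⟨hx, hc', ih.tail ⟨hP _ hb, hP _ hc', hcol, hs _ hb _ hc' hdist⟩⟩
  rcases h1 y hxy with rfl | ⟨hx, hy, h2⟩
  · rw [dist_self]; positivity
  · have := hc _ _ h2
    have := hd x hx y hy
    linarith

theorem a4 : S_A4 := by
  intro X _ P P' k s s' D D' hP hs hD ⟨c, hc⟩
  refine ⟨c, fun x y hxy => (hc x y ?_).trans hD⟩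
  exact Relation.ReflTransGen.mono (fun a b h => ⟨hP h.1, hP h.2.1, h.2.2.1, h.2.2.2.trans hs⟩) _ _ hxy

theorem a6 : S_A6 := by
  intro X _ o T D hT hD h
  choose c hc using fun j : ℤ => h ((j : ℝ) * T)
  let J : X → ℤ := fun x => ⌊dist o x / T⌋
  let e : Fin 2 × Fin 2 ≃ Fin 4 := finProdFinEquiv
  let col : X → Fin 4 := fun x => e (if Even (J x) then 0 else 1, c (J x) x)
  have hJ : ∀ x, (J x : ℝ) * T ≤ dist o x ∧ dist o x ≤ (J x : ℝ) * T + T := by
    intro x
    have h1 := Int.floor_le (dist o x / T)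
    have h2 := (Int.lt_floor_add_one (dist o x / T)).le
    rw [le_div_iff₀ hT] at h1
    rw [div_le_iff₀ hT] at h2
    refine ⟨h1, ?_⟩
    change _ ≤ ((⌊dist o x / T⌋ : ℤ) : ℝ) * T + T
    linarith
  have step : ∀ x y, Stp Set.univ col T x y → J y = J x ∧ c (J x) x = c (J x) y := by
    intro x y hxy
    obtain ⟨_, _, hcol, hd⟩ := hxy
    have h3 := e.injective hcol
    rw [Prod.mk.injEq] at h3
    have h4 : J y = J x := by
      have h5 : Even (J x) ↔ Even (J y) := by
        have h6 := h3.1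
        by_cases hx : Even (J x) <;> by_cases hy : Even (J y) <;> simp [hx, hy] at h6 ⊢
      have h6 : |dist o x / T - dist o y / T| ≤ 1 := by
        rw [← sub_div, abs_div, abs_of_pos hT, div_le_one hT]
        have := abs_dist_sub_le x y o
        rw [dist_comm x o, dist_comm y o] at this
        linarith
      rw [abs_le] at h6
      have a1 := Int.floor_le (dist o x / T)
      have a2 := Int.lt_floor_add_one (dist o x / T)
      have a3 := Int.floor_le (dist o y / T)
      have a4 := Int.lt_floor_add_one (dist o y / T)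
      have b1 : (J x : ℝ) < J y + 2 := by
        change ((⌊dist o x / T⌋ : ℤ) : ℝ) < ((⌊dist o y / T⌋ : ℤ) : ℝ) + 2
        linarith
      have b2 : (J y : ℝ) < J x + 2 := by
        change ((⌊dist o y / T⌋ : ℤ) : ℝ) < ((⌊dist o x / T⌋ : ℤ) : ℝ) + 2
        linarith
      have b3 : J x < J y + 2 := by exact_mod_cast b1
      have b4 : J y < J x + 2 := by exact_mod_cast b2
      rw [Int.even_iff, Int.even_iff] at h5
      omega
    refine ⟨h4, ?_⟩
    rw [← h4, h4]
    have := h3.2
    rwa [h4] at this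
  refine ⟨col, fun x y hxy => ?_⟩
  apply hc (J x)
  have h7 : ∀ y, Relation.ReflTransGen (Stp Set.univ col T) x y → J y = J x ∧
      Relation.ReflTransGen (Stp {z | (J x : ℝ) * T ≤ dist o z ∧ dist o z ≤ (J x : ℝ) * T + T}
        (c (J x)) T) x y := by
    intro y hy
    induction hy with
    | refl => exact ⟨rfl, Relation.ReflTransGen.refl⟩
    | @tail b z _ hbz ih =>
      obtain ⟨ih1, ih2⟩ := ih
      obtain ⟨s1, s2⟩ := step b z hbz
      rw [ih1] at s1 s2
      refine ⟨s1, ih2.tail ⟨?_, ?_, s2, hbz.2.2.2⟩⟩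
      · have := hJ b
        rwa [ih1] at this
      · have := hJ z
        rwa [s1] at this
  exact (h7 y hxy).2

end Pool.Agent.H920.AN
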