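import Pool.Agent.H343.AN.StAB

set_option autoImplicit false

namespace Pool.Agent.H920.AN

open Pool.Agent.H343.AN

/-- the constants of the union theorem -/
noncomputable def Cf (C : ℝ) : ℕ → ℝ
  | 0 => 0
  | j + 1 => (Cf C j + 2) * (C + 2)

theorem Cf_nonneg {C : ℝ} (hC : 1 ≤ C) : ∀ j, 0 ≤ Cf C j
  | 0 => le_refl _
  | j + 1 => by
    have := Cf_nonneg hC j
    unfold Cf
    nlinarith

theorem Cf_one {C : ℝ} (hC : 1 ≤ C) {k : ℕ} (hk : 0 < k) : 1 ≤ Cf C k := by
  obtain ⟨j, rfl⟩ : ∃ j, k = j + 1 := ⟨k - 1, by omega⟩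
  have := Cf_nonneg hC j
  unfold Cf
  nlinarith

/-- the step from the scale `lam * s` to the scale `s` -/
theorem down (h1 : S_A1) (h2 : S_A2) (h4 : S_A4) {k : ℕ} {C : ℝ} (hk : 0 < k) (hC : 1 ≤ C)
    {X : Type} [PseudoMetricSpace X] {B : Set X} {s : ℝ} (hs : 0 < s)
    (hloc : ∀ t, s ≤ t → ∀ x : X,
      Col (Metric.closedBall x (Cf C k * (C + 2) ^ k * t)) k t (C * t))
    (hB : Col B k ((C + 2) ^ k * s) (Cf C k * ((C + 2) ^ k * s))) :
    Col B k s (Cf C k * s) := by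
  obtain ⟨c₀, hc₀⟩ := hB
  have hCk := Cf_one hC hk
  have hlam : 1 ≤ (C + 2) ^ k := one_le_pow₀ (by linarith)
  -- the classes of `c₀`
  have hcls : ∀ (i : ℕ) (t : ℝ), s ≤ t → t ≤ (C + 2) ^ k * s →
      Col {x | x ∈ B ∧ (c₀ x : ℕ) = i} k t (C * t) := by
    intro i t hst htl
    have ht : 0 < t := lt_of_lt_of_le hs hst
    refine h2 hk (by positivity) ?_
    intro x hx
    refine ⟨{y | (y ∈ B ∧ (c₀ y : ℕ) = i) ∧
      Relation.ReflTransGen (Stp B c₀ ((C + 2) ^ k * s)) x y}, ⟨hx, Relation.ReflTransGen.refl⟩,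
      ?_, ?_⟩
    · rintro y ⟨hy, hxy⟩ z hz hyz
      refine ⟨hz, hxy.tail ⟨hy.1, hz.1, Fin.ext (hy.2.trans hz.2.symm), hyz.trans htl⟩⟩
    · refine h4 ?_ le_rfl le_rfl (hloc t hst x)
      rintro y ⟨_, hxy⟩
      rw [Metric.mem_closedBall, dist_comm]
      refine (hc₀ x y hxy).trans ?_
      rw [mul_assoc]
      have : (C + 2) ^ k * s ≤ (C + 2) ^ k * t := by gcongr
      gcongr
  -- unions of classes
  have huni : ∀ j : ℕ, j ≤ k → ∀ t : ℝ, s ≤ t → t ≤ (C + 2) ^ (k - j) * s →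
      Col {x | x ∈ B ∧ (c₀ x : ℕ) < j} k t (Cf C j * t) := by
    intro j
    induction j with
    | zero =>
      intro _ t hst _
      refine ⟨c₀, fun x y hxy => ?_⟩
      rcases Relation.ReflTransGen.cases_head hxy with rfl | ⟨z, hz, _⟩
      · rw [dist_self]; unfold Cf; simp
      · exact absurd hz.1.2 (Nat.not_lt_zero _)
    | succ j ih =>
      intro hj t hst htl
      have ht : 0 < t := lt_of_lt_of_le hs hst
      have hle : (C + 2) ^ (k - (j + 1)) * s ≤ (C + 2) ^ k * s := by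
        have : (C + 2) ^ (k - (j + 1)) ≤ (C + 2) ^ k := pow_le_pow_right₀ (by linarith) (by omega)
        gcongr
      have hpow : (C + 2) ^ (k - j) = (C + 2) ^ (k - (j + 1)) * (C + 2) := by
        rw [← pow_succ]
        congr 1
        omega
      have e1 := hcls j t hst (htl.trans hle)
      have e2 := ih (by omega) ((C + 2) * t) (by nlinarith) (by
        rw [hpow]
        nlinarith)
      have e3 := h1 ht.le e2 e1 (by linarith)
      refine h4 ?_ le_rfl ?_ e3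
      · rintro x ⟨hx, hxj⟩
        rcases Nat.lt_succ_iff_lt_or_eq.1 hxj with h | h
        · exact Or.inl ⟨hx, h⟩
        · exact Or.inr ⟨hx, h⟩
      · have := Cf_nonneg hC j
        have h5 : Cf C (j + 1) = (Cf C j + 2) * (C + 2) := rfl
        rw [h5]
        nlinarith
  refine h4 ?_ le_rfl le_rfl (huni k le_rfl s le_rfl (by simp))
  intro x hx
  exact ⟨hx, (c₀ x).2⟩

theorem ball (h1 : S_A1) (h2 : S_A2) (h4 : S_A4) {k : ℕ} {C : ℝ} (hk : 0 < k) (hC : 1 ≤ C)
    {X : Type} [PseudoMetricSpace X] {x₀ : X} {R τ : ℝ} (hτ : 0 < τ)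
    (hloc : ∀ t, τ ≤ t → ∀ x : X,
      Col (Metric.closedBall x (Cf C k * (C + 2) ^ k * t)) k t (C * t)) :
    ∀ (n : ℕ) (s : ℝ), τ ≤ s → 2 * R ≤ ((C + 2) ^ k) ^ n * s →
      Col (Metric.closedBall x₀ R) k s (Cf C k * s) := by
  have hCk := Cf_one hC hk
  have hlam : 1 ≤ (C + 2) ^ k := one_le_pow₀ (by linarith)
  intro n
  induction n with
  | zero =>
    intro s hs hR
    have hs0 : 0 < s := lt_of_lt_of_le hτ hs
    refine ⟨fun _ => ⟨0, hk⟩, fun x y hxy => ?_⟩
    rcases Relation.ReflTransGen.cases_head hxy with rfl | ⟨z, hz, _⟩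
    · rw [dist_self]; positivity
    · rcases Relation.ReflTransGen.cases_tail hxy with rfl | ⟨w, _, hw⟩
      · rw [dist_self]; positivity
      · have a1 := Metric.mem_closedBall.1 hz.1
        have a2 := Metric.mem_closedBall.1 hw.2.1
        have a3 := dist_triangle_right x y x₀
        rw [pow_zero, one_mul] at hR
        have a4 : s ≤ Cf C k * s := le_mul_of_one_le_left hs0.le hCk
        linarith
  | succ n ih =>
    intro s hs hR
    have hs0 : 0 < s := lt_of_lt_of_le hτ hs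
    refine down h1 h2 h4 hk hC hs0 (fun t ht x => hloc t (hs.trans ht) x) ?_
    refine ih _ (hs.trans (le_mul_of_one_le_left hs0.le hlam)) ?_
    rw [← mul_assoc, ← pow_succ]
    exact hR

theorem a5 : S_A1 → S_A2 → S_A4 → S_A5 := by
  intro h1 h2 h4 k C hk hC
  have hCk := Cf_one hC hk
  have hlam : 1 ≤ (C + 2) ^ k := one_le_pow₀ (by linarith)
  refine ⟨Cf C k * (C + 2) ^ k, Cf C k, by nlinarith, hCk, ?_⟩
  intro X _ τ hτ hloc s hs
  have hs0 : 0 < s := lt_of_lt_of_le hτ hs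
  rcases isEmpty_or_nonempty X with hX | ⟨⟨x₀⟩⟩
  · exact ⟨fun x => hX.elim x, fun x => hX.elim x⟩
  have hball : ∀ n : ℕ, Col (Metric.closedBall x₀ (n : ℝ)) k s (Cf C k * s) := by
    intro n
    obtain ⟨m, hm⟩ : ∃ m : ℕ, 2 * (n : ℝ) / s ≤ ((C + 2) ^ k) ^ m := by
      have h5 : 1 < (C + 2) ^ k := one_lt_pow₀ (by linarith) (by omega)
      obtain ⟨m, hm⟩ := pow_unbounded_of_one_lt (2 * (n : ℝ) / s) h5
      exact ⟨m, hm.le⟩
    refine ball h1 h2 h4 hk hC hτ hloc m s hs ?_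
    rwa [div_le_iff₀ hs0] at hm
  choose c hc using hball
  have hU : ∀ x : X, ∃ i : Fin k, ∀ᶠ (n : ℕ) in (Filter.hyperfilter ℕ : Filter ℕ), c n x = i := by
    intro x
    exact (Ultrafilter.eventually_exists_iff (f := Filter.hyperfilter ℕ)
      (P := fun (i : Fin k) (n : ℕ) => c n x = i)).1 (Filter.Eventually.of_forall fun n => ⟨_, rfl⟩)
  choose d hd using hU
  refine ⟨d, fun x y hxy => ?_⟩
  have h6 : ∀ y, Relation.ReflTransGen (Stp Set.univ d s) x y →
      ∀ᶠ (n : ℕ) in (Filter.hyperfilter ℕ : Filter ℕ),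
        Relation.ReflTransGen (Stp (Metric.closedBall x₀ (n : ℝ)) (c n) s) x y := by
    intro y hy
    have hlarge : ∀ z : X, ∀ᶠ (n : ℕ) in (Filter.hyperfilter ℕ : Filter ℕ),
        z ∈ Metric.closedBall x₀ ((n : ℕ) : ℝ) := by
      intro z
      have h7 : ∀ᶠ n : ℕ in Filter.atTop, z ∈ Metric.closedBall x₀ ((n : ℕ) : ℝ) := by
        filter_upwards [Filter.eventually_ge_atTop ⌈dist z x₀⌉₊] with n hn
        rw [Metric.mem_closedBall]
        exact (Nat.le_ceil _).trans (by exact_mod_cast hn)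
      exact Nat.hyperfilter_le_atTop h7
    induction hy with
    | refl => exact Filter.Eventually.of_forall fun _ => Relation.ReflTransGen.refl
    | @tail b z _ hbz ih =>
      filter_upwards [ih, hlarge b, hlarge z, hd b, hd z] with n a1 a2 a3 a4 a5
      refine a1.tail ⟨a2, a3, ?_, hbz.2.2.2⟩
      rw [a4, a5, hbz.2.2.1]
  obtain ⟨n, hn⟩ := (h6 y hxy).exists
  exact hc n x y hn

end Pool.Agent.H920.AN
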