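import Pool.Agent.H343.AN.StC

set_option autoImplicit false

namespace Pool.Agent.H920.AN

open Pool.Agent.TH68 Pool.Agent.Helper97.Hyp Pool.Agent.H343.AN

theorem c5 : ToolA → S_c4 → S_c5 := by
  intro TA h4 Γ _ W 𝒜 _ Y R W' hQ hρ σ hcol U b D₀ T' hb hD hD₀ hσ hT'
  obtain ⟨f, hf, m, hm, hlow, hup⟩ := h4 Y R W' hQ hρ hb hD hD₀
  have hθ : 1 ≤ Y.θ := Y.hδ.trans Y.hθ
  have hT0 : 0 ≤ T' := by linarith
  let U₁ : Set (Pt W') := {x | x ∈ U ∧ dist (pt W 1) (f x) ≤ b + 50 * Y.θ}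
  let U₂ : Set (Pt W') := {x | x ∈ U ∧ dist (m • pt W 1) (f x) ≤ b + 50 * Y.θ}
  have hU₁ : ∀ s, T' ≤ s → Col U₁ 2 s (7 * s + 0) := by
    intro s hs
    refine TA.a3 (P := U₁) (P' := Ann W b s) (s' := s) f le_rfl (by linarith) ?_ ?_ ?_
      (hcol s (by linarith) b)
    · rintro x ⟨hx, hx'⟩
      exact ⟨(hlow x hx).1, by linarith⟩
    · rintro x ⟨hx, _⟩ y ⟨hy, _⟩ hxy
      rw [hf x hx y hy]
      exact hxy
    · rintro x ⟨hx, _⟩ y ⟨hy, _⟩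
      rw [hf x hx y hy]
      linarith
  have hd : ∀ x : Pt W', dist (pt W 1) (m⁻¹ • f x) = dist (m • pt W 1) (f x) := by
    intro x
    rw [← dist_smul m (pt W 1) (m⁻¹ • f x), smul_inv_smul]
  have hU₂ : ∀ s, T' ≤ s → Col U₂ 2 s (7 * s + 0) := by
    intro s hs
    refine TA.a3 (P := U₂) (P' := Ann W b s) (s' := s) (fun x => m⁻¹ • f x) le_rfl (by linarith)
      ?_ ?_ ?_ (hcol s (by linarith) b)
    · rintro x ⟨hx, hx'⟩
      have h1 := (hlow x hx).2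
      rw [← hd] at h1 hx'
      exact ⟨h1, by linarith⟩
    · rintro x ⟨hx, _⟩ y ⟨hy, _⟩ hxy
      rw [dist_smul, hf x hx y hy]
      exact hxy
    · rintro x ⟨hx, _⟩ y ⟨hy, _⟩
      rw [dist_smul, hf x hx y hy]
      linarith
  have h5 := TA.a1 hT0 (hU₁ (9 * T') (by linarith)) (hU₂ T' le_rfl) (by linarith)
  refine TA.a4 ?_ le_rfl (by linarith) h5
  intro x hx
  rcases hup x hx with h | h
  · exact Or.inl ⟨hx, h⟩
  · exact Or.inr ⟨hx, h⟩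

theorem c6 : ToolA → S_c5 → S_c6 := by
  intro TA h5 Γ _ W 𝒜 _ Y R W' hQ hρ σ hcol b r s hσ hs hsr hr ⟨c₀, hc₀⟩
  have hθ : 1 ≤ Y.θ := Y.hδ.trans Y.hθ
  have hs0 : 0 < s := by linarith
  have hcls : ∀ (i : Fin 2) (T' : ℝ), s ≤ T' → T' ≤ r →
      Col {x : Pt W' | dist (pt W' 1) x = b ∧ c₀ x = i} 2 T' (79 * T') := by
    intro i T' h1 h2
    refine TA.a2 (by norm_num) (by linarith) ?_
    intro x hx
    refine ⟨{y | (dist (pt W' 1) y = b ∧ c₀ y = i) ∧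
      Relation.ReflTransGen (Stp {x : Pt W' | dist (pt W' 1) x = b} c₀ r) x y},
      ⟨hx, Relation.ReflTransGen.refl⟩, ?_, ?_⟩
    · rintro y ⟨hy, hxy⟩ z hz hyz
      exact ⟨hz, hxy.tail ⟨hy.1, hz.1, hy.2.trans hz.2.symm, hyz.trans h2⟩⟩
    · refine h5 Y R W' hQ hρ hcol (b := b) (D₀ := 80 * r) ?_ ?_ (by linarith) (by linarith)
        (by linarith)
      · rintro y ⟨hy, _⟩
        exact hy.1
      · rintro y ⟨_, hy⟩ z ⟨_, hz⟩
        have h3 := hc₀ _ _ hy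
        have h4 := hc₀ _ _ hz
        have h6 := dist_triangle_left y z x
        linarith
  have h6 := TA.a1 hs0.le (hcls 0 (81 * s) (by linarith) hsr) (hcls 1 s le_rfl (by linarith))
    (by linarith)
  refine TA.a4 ?_ le_rfl (by linarith) h6
  intro x hx
  have h7 : c₀ x = 0 ∨ c₀ x = 1 := by
    generalize c₀ x = j
    fin_cases j
    · exact Or.inl rfl
    · exact Or.inr rfl
  rcases h7 with h | h
  · exact Or.inl ⟨hx, h⟩
  · exact Or.inr ⟨hx, h⟩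

end Pool.Agent.H920.AN
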