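import Pool.Agent.H343.AN.StC

set_option autoImplicit false

namespace Pool.Agent.H920.AN

open Pool.Agent.TH68 Pool.Agent.Helper97.Hyp Pool.Agent.H343.AN

theorem c7 : ToolA → S_c2 → S_c3 → S_c6 → S_c7 := by
  intro TA h2 h3 h6 Γ _ W 𝒜 _ Y R W' hQ hρ σ hcol r s hσ hs hsr hr
  have hθ : 1 ≤ Y.θ := Y.hδ.trans Y.hθ
  have hs0 : 0 < s := by linarith
  have hr0 : 0 < r := by linarith
  have hθr : Y.θ ≤ r / (5 * 10 ^ 5) := by
    rw [le_div_iff₀ (by norm_num)]
    linarith
  -- small annuli
  have hsmall : ∀ a, a ≤ 10 * r → Col (Ann W' a r) 2 r (40 * r) := by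
    intro a ha
    refine ⟨fun _ => 0, fun x y hxy => ?_⟩
    rcases Relation.ReflTransGen.cases_head hxy with rfl | ⟨z, hz, _⟩
    · rw [dist_self]; linarith
    · rcases Relation.ReflTransGen.cases_tail hxy with rfl | ⟨w, _, hw⟩
      · rw [dist_self]; linarith
      · have a1 := hz.1.2
        have a2 := hw.2.1.2
        have a3 := dist_triangle_left x y (pt W' 1)
        linarith
  have key : ∀ (n : ℕ) (a : ℝ), a ≤ n * r → Col (Ann W' a r) 2 r (40 * r) := by
    intro n
    induction n with
    | zero =>
      intro a ha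
      rw [Nat.cast_zero, zero_mul] at ha
      exact hsmall a (by linarith)
    | succ n ih =>
      intro a ha
      by_cases ha' : a ≤ 10 * r
      · exact hsmall a ha'
      push Not at ha'
      push_cast at ha
      -- the sphere
      obtain ⟨b, hb1, hb2⟩ : ∃ b : ℕ, a - r - 20 * Y.θ - 1 < b ∧ (b : ℝ) ≤ a - r - 20 * Y.θ := by
        refine ⟨⌊a - r - 20 * Y.θ⌋₊, ?_, ?_⟩
        · have := Nat.lt_floor_add_one (a - r - 20 * Y.θ)
          linarith
        · apply Nat.floor_le
          linarith
      have hsph : Col {x : Pt W' | dist (pt W' 1) x = b} 2 s (6559 * s) := by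
        refine h6 Y R W' hQ hρ hcol (r := r) hσ hs (by linarith) hr ?_
        refine TA.a4 ?_ le_rfl le_rfl (ih b (by linarith))
        intro x hx
        have hx' : dist (pt W' 1) x = b := hx
        exact ⟨hx'.ge, by linarith⟩
      -- the map to the sphere
      have hz : ∀ x : Pt W', ∃ z : Pt W', x ∈ Ann W' a r → dist (pt W' 1) z = b ∧
          dist z x = dist (pt W' 1) x - b := by
        intro x
        by_cases hx : x ∈ Ann W' a r
        · obtain ⟨z, hz1, hz2⟩ := exists_between (pt W' 1) x b (by
            have := hx.1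
            linarith)
          exact ⟨z, fun _ => ⟨hz1, hz2⟩⟩
        · exact ⟨x, fun h => absurd h hx⟩
      choose z hz using hz
      have hV : Col (Ann W' a r \ Zset R W' (3 * r + 40 * Y.θ) (r + 60 * Y.θ)) 2 r
          (6559 * s + 2 * (2 * r + 21 * Y.θ)) := by
        refine TA.a3 (P' := {x : Pt W' | dist (pt W' 1) x = b}) (s' := s) z (by linarith)
          (by linarith) ?_ ?_ ?_ hsph
        · intro x hx
          exact (hz x hx.1).1
        · intro x hx y hy hxy
          obtain ⟨x1, x2⟩ := hz x hx.1
          obtain ⟨y1, y2⟩ := hz y hy.1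
          have x3 := hx.1.1
          have x4 := hx.1.2
          have y3 := hy.1.1
          have y4 := hy.1.2
          have h7 := h2 Y R W' hQ hρ (x := x) (y := y) (z := z x) (w := z y) (r := r)
            (t := 3 * r + 40 * Y.θ) hr0.le (by linarith) hxy (by unfold exc; linarith)
            (by unfold exc; linarith) (by rw [x1, y1]) (by linarith) (by linarith) (by linarith)
            (by linarith) hx.2
          linarith
        · intro x hx y hy
          obtain ⟨x1, x2⟩ := hz x hx.1
          obtain ⟨y1, y2⟩ := hz y hy.1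
          have x4 := hx.1.2
          have y4 := hy.1.2
          have h8 := dist_triangle4 x (z x) (z y) y
          rw [dist_comm x (z x)] at h8
          linarith
      have hZ : Col (Ann W' a r ∩ Zset R W' (3 * r + 40 * Y.θ) (r + 60 * Y.θ)) 2 (8 * r)
          (17 * r) := by
        refine ⟨fun _ => 0, fun x y hxy => ?_⟩
        have h9 := h3 Y R W' hQ hρ (a := a) (r := r) (t := 3 * r + 40 * Y.θ)
          (η := r + 60 * Y.θ) (T := 8 * r) hr0.le (by linarith) (by linarith) (by linarith)
          (by linarith) x y (Relation.ReflTransGen.mono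
            (fun u v huv => ⟨huv.1, huv.2.1, huv.2.2.2⟩) _ _ hxy)
        linarith
      have h10 := TA.a1 hr0.le hZ hV (by linarith)
      refine TA.a4 ?_ le_rfl (by linarith) h10
      intro x hx
      by_cases hxz : x ∈ Zset R W' (3 * r + 40 * Y.θ) (r + 60 * Y.θ)
      · exact Or.inl ⟨hx, hxz⟩
      · exact Or.inr ⟨hx, hxz⟩
  intro a
  obtain ⟨n, hn⟩ := exists_nat_ge (a / r)
  exact key n a (by rwa [div_le_iff₀ hr0] at hn)

end Pool.Agent.H920.AN
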